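import Pool.Agent.KS6_99.EN.Net

/-!
# The algebraic condition for integral domains

Let `R` be an integral domain contained in a field `K`. We show that `z ∈ R + u R[z, u]` for all
`z, u ∈ K` with `u ≠ 0` if and only if `R` is a field over which `K` is algebraic, or `K` is the
field of fractions of `R` and `R` is a Pruefer domain of Krull dimension at most one.
-/

set_option autoImplicit false

open Polynomial

namespace Pool.Agent.KS6_99.EN

/-- Pruefer domain: all localizations at maximal ideals are valuation rings. -/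
def IsPruferDomain (R : Type*) [CommRing R] [IsDomain R] : Prop :=
  ∀ (P : Ideal R) [P.IsMaximal], ValuationRing (Localization P.primeCompl)

section

variable {R K : Type*} [CommRing R] [IsDomain R] [Field K] [Algebra R K] [FaithfulSMul R K]

omit [IsDomain R] [FaithfulSMul R K] in
/-- `R[z, u] = R[z]` for `u` in `R[z]` -/
lemma adjoin_pair_eq {z u : K} (hu : u ∈ Algebra.adjoin R {z}) :
    Algebra.adjoin R {z, u} = Algebra.adjoin R {z} := by
  apply le_antisymm
  · apply Algebra.adjoin_le
    rintro x (rfl | hx)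
    · exact Algebra.self_mem_adjoin_singleton R x
    · rw [Set.mem_singleton_iff] at hx
      rwa [hx]
  · exact Algebra.adjoin_mono (by simp)

omit [IsDomain R] [FaithfulSMul R K] in
/-- the condition for elements `u` of `R[z]` -/
lemma Cond.poly (hP : Cond R K) (z : K) {u : K} (hu : u ∈ Algebra.adjoin R {z}) (hu0 : u ≠ 0) :
    ∃ (r : R) (g : R[X]), z = algebraMap R K r + u * aeval z g := by
  obtain ⟨r, y, hy, h⟩ := hP z u hu0
  rw [adjoin_pair_eq hu, Algebra.adjoin_singleton_eq_range_aeval] at hy
  obtain ⟨g, rfl⟩ := hy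
  exact ⟨r, g, h⟩

omit [FaithfulSMul R K] in
/-- the condition implies that `K` is algebraic over `R` -/
lemma Cond.isAlgebraic (hP : Cond R K) : Algebra.IsAlgebraic R K := by
  refine ⟨fun θ => ?_⟩
  by_contra hθ
  have hθ0 : θ ≠ 0 := by
    rintro rfl
    exact hθ (isAlgebraic_zero)
  obtain ⟨r, g, h⟩ := hP.poly θ (u := θ ^ 2)
    (Subalgebra.pow_mem _ (Algebra.self_mem_adjoin_singleton R θ) 2) (pow_ne_zero 2 hθ0)
  apply hθ
  refine ⟨X - C r - X ^ 2 * g, ?_, ?_⟩
  · intro h0
    have hc := congrArg (fun f : R[X] => f.coeff 1) h0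
    simp only [coeff_sub, coeff_X_one, coeff_zero] at hc
    rw [coeff_C_of_ne_zero (by norm_num : (1 : ℕ) ≠ 0), coeff_X_pow_mul'] at hc
    simp at hc
  · rw [map_sub, map_sub, map_mul, map_pow, aeval_X, aeval_C]
    linear_combination h

/-- the condition gives all fractions if `R` is not a field -/
lemma Cond.exists_fraction (hP : Cond R K) (hR : ¬ IsField R) (θ : K) :
    ∃ a b : R, b ≠ 0 ∧ θ * algebraMap R K b = algebraMap R K a := by
  have hinj : Function.Injective (algebraMap R K) := FaithfulSMul.algebraMap_injective R K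
  -- a nonzero nonunit
  obtain ⟨q, hq0, hqu⟩ := Ring.exists_not_isUnit_of_not_isField hR
  -- make `θ` integral
  have halg : Algebra.IsAlgebraic R K := hP.isAlgebraic
  obtain ⟨y, hy0, hyint⟩ := (halg.isAlgebraic θ).exists_integral_multiple
  suffices H : ∀ θ : K, IsIntegral R θ → ∃ a b : R, b ≠ 0 ∧
      θ * algebraMap R K b = algebraMap R K a by
    obtain ⟨a, b, hb, hab⟩ := H (y • θ) hyint
    refine ⟨a, y * b, mul_ne_zero hy0 hb, ?_⟩
    rw [Algebra.smul_def] at hab
    rw [map_mul]
    linear_combination hab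
  clear hy0 hyint y θ
  intro θ hθ
  by_contra hno
  push Not at hno
  let _ : Algebra (FractionRing R) K := FractionRing.liftAlgebra R K
  have _ : IsScalarTower R (FractionRing R) K := FractionRing.isScalarTower_liftAlgebra R K
  have hmem : θ ∉ (Submodule.span (FractionRing R) {(1 : K)}) := by
    intro hm
    obtain ⟨c, hc⟩ := Submodule.mem_span_singleton.1 hm
    obtain ⟨a, b, hb, hab⟩ := IsFractionRing.div_surjective (A := R) c
    have hb0 : b ≠ 0 := nonZeroDivisors.ne_zero hb
    apply hno a b hb0
    rw [← hc, ← hab, Algebra.smul_def, mul_one, map_div₀,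
      ← IsScalarTower.algebraMap_apply R (FractionRing R) K,
      ← IsScalarTower.algebraMap_apply R (FractionRing R) K]
    have : algebraMap R K b ≠ 0 := by
      rw [Ne, map_eq_zero_iff _ hinj]
      exact hb0
    field_simp
  obtain ⟨f₀, hf₀, hf₀'⟩ := Submodule.exists_dual_map_eq_bot_of_notMem hmem inferInstance
  have hf₀1 : f₀ 1 = 0 := by
    have h1 : f₀ 1 ∈ (Submodule.span (FractionRing R) {(1 : K)}).map f₀ :=
      Submodule.mem_map_of_mem (Submodule.mem_span_singleton_self _)
    rw [hf₀'] at h1
    exact h1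
  -- the finitely generated module `R[θ]` has image with bounded denominators
  have hfg : (Subalgebra.toSubmodule (Algebra.adjoin R {θ})).FG := hθ.fg_adjoin_singleton
  have hfg' := hfg.map (f₀.restrictScalars R)
  obtain ⟨c, hc, hcI⟩ := FractionalIdeal.isFractional_of_fg (S := nonZeroDivisors R)
    (P := FractionRing R) hfg'
  have hc0 : c ≠ 0 := nonZeroDivisors.ne_zero hc
  -- denominators for `f₀ θ`
  obtain ⟨a, b, hb, hab⟩ := IsFractionRing.div_surjective (A := R) (f₀ θ)
  have hb0 : b ≠ 0 := nonZeroDivisors.ne_zero hb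
  have ha0 : a ≠ 0 := by
    rintro rfl
    rw [map_zero, zero_div] at hab
    exact hf₀ hab.symm
  have hu0 : algebraMap R K (q * c * a) ≠ 0 := by
    rw [Ne, map_eq_zero_iff _ hinj]
    exact mul_ne_zero (mul_ne_zero hq0 hc0) ha0
  obtain ⟨r, g, h⟩ := hP.poly θ (u := algebraMap R K (q * c * a)) (Subalgebra.algebraMap_mem _ _)
    hu0
  have hy : aeval θ g ∈ Subalgebra.toSubmodule (Algebra.adjoin R {θ}) := by
    rw [Subalgebra.mem_toSubmodule, Algebra.adjoin_singleton_eq_range_aeval]
    exact ⟨g, rfl⟩
  obtain ⟨r', hr'⟩ := hcI _ (Submodule.mem_map_of_mem hy)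
  have h1 : f₀ θ = algebraMap R (FractionRing R) (q * a) * algebraMap R (FractionRing R) r' := by
    rw [hr']
    have h2 : θ = r • (1 : K) + (q * a) • (c • aeval θ g) := by
      rw [Algebra.smul_def, Algebra.smul_def, Algebra.smul_def, mul_one, ← mul_assoc, ← map_mul]
      rw [show q * a * c = q * c * a by ring]
      exact h
    have h3 : f₀ θ = r • f₀ 1 + (q * a) • (c • f₀ (aeval θ g)) := by
      conv_lhs => rw [h2]
      rw [map_add, LinearMap.map_smul_of_tower, LinearMap.map_smul_of_tower,
        LinearMap.map_smul_of_tower]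
    rw [h3, hf₀1, smul_zero, zero_add, Algebra.smul_def (q * a)]
    rfl
  rw [← hab] at h1
  have hb1 : algebraMap R (FractionRing R) b ≠ 0 := by
    rw [Ne, IsFractionRing.to_map_eq_zero_iff]
    exact hb0
  rw [div_eq_iff hb1, ← map_mul, ← map_mul] at h1
  have h4 := IsFractionRing.injective R (FractionRing R) h1
  have h5 : a * (q * (r' * b) - 1) = 0 := by linear_combination -h4
  rcases mul_eq_zero.1 h5 with h6 | h6
  · exact ha0 h6
  · exact hqu (IsUnit.of_mul_eq_one (r' * b) (by linear_combination h6))

/-- the condition implies integral closedness in the field of fractions -/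
lemma Cond.mem_of_isIntegral [IsFractionRing R K] (hP : Cond R K) {z : K} (hz : IsIntegral R z) :
    ∃ r : R, algebraMap R K r = z := by
  have hinj : Function.Injective (algebraMap R K) := FaithfulSMul.algebraMap_injective R K
  obtain ⟨c, hc, hcI⟩ := FractionalIdeal.isFractional_of_fg (S := nonZeroDivisors R)
    (P := K) hz.fg_adjoin_singleton
  have hc0 : c ≠ 0 := nonZeroDivisors.ne_zero hc
  have hc1 : algebraMap R K c ≠ 0 := by
    rw [Ne, map_eq_zero_iff _ hinj]
    exact hc0
  obtain ⟨r, g, h⟩ := hP.poly z (u := algebraMap R K c) (Subalgebra.algebraMap_mem _ _) hc1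
  have hy : aeval z g ∈ Subalgebra.toSubmodule (Algebra.adjoin R {z}) := by
    rw [Subalgebra.mem_toSubmodule, Algebra.adjoin_singleton_eq_range_aeval]
    exact ⟨g, rfl⟩
  obtain ⟨r', hr'⟩ := hcI _ hy
  refine ⟨r + r', ?_⟩
  rw [map_add, hr', Algebra.smul_def]
  exact h.symm

omit [IsDomain R] [FaithfulSMul R K] in
/-- clearing denominators in a polynomial expression -/
lemma clear_denom {z : K} {c s : R} (h : z * algebraMap R K c = algebraMap R K s) (g : R[X]) :
    ∃ (N : ℕ) (y : R), algebraMap R K c ^ N * aeval z g = algebraMap R K y := by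
  induction g using Polynomial.induction_on' with
  | add f g hf hg =>
    obtain ⟨N, y, hy⟩ := hf
    obtain ⟨N', y', hy'⟩ := hg
    refine ⟨N + N', c ^ N' * y + c ^ N * y', ?_⟩
    rw [map_add, map_add, map_mul, map_mul, map_pow, map_pow, ← hy, ← hy']
    ring
  | monomial n a =>
    refine ⟨n, a * s ^ n, ?_⟩
    rw [aeval_monomial, map_mul, map_pow, ← h]
    ring

omit [IsDomain R] in
/-- the condition implies that the Krull dimension is at most one -/
lemma Cond.dimensionLEOne (hP : Cond R K) : Ring.DimensionLEOne R := by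
  have hinj : Function.Injective (algebraMap R K) := FaithfulSMul.algebraMap_injective R K
  refine ⟨fun {p} hp0 hp => ?_⟩
  obtain ⟨m, hm, hpm⟩ := p.exists_le_maximal hp.ne_top
  suffices h : p = m by rwa [h]
  by_contra hne
  obtain ⟨c, hcm, hcp⟩ := SetLike.exists_of_lt (lt_of_le_of_ne hpm hne)
  obtain ⟨d, hd, hd0⟩ := (Submodule.ne_bot_iff p).1 hp0
  have hc1 : algebraMap R K c ≠ 0 := by
    rw [Ne, map_eq_zero_iff _ hinj]
    rintro rfl
    exact hcp p.zero_mem
  have hd1 : algebraMap R K d ≠ 0 := by
    rw [Ne, map_eq_zero_iff _ hinj]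
    exact hd0
  obtain ⟨r, g, h⟩ := hP.poly (algebraMap R K c)⁻¹ (u := algebraMap R K d)
    (Subalgebra.algebraMap_mem _ _) hd1
  obtain ⟨N, y, hy⟩ := clear_denom (z := (algebraMap R K c)⁻¹) (c := c) (s := 1)
    (by rw [inv_mul_cancel₀ hc1, map_one]) g
  have h1 : c ^ N = c ^ (N + 1) * r + d * c * y := by
    apply hinj
    rw [map_add, map_mul, map_mul, map_mul, map_pow, map_pow, ← hy]
    have h2 : algebraMap R K c ^ (N + 1) * (algebraMap R K c)⁻¹ =
        algebraMap R K c ^ (N + 1) * (algebraMap R K r + algebraMap R K d *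
          aeval (algebraMap R K c)⁻¹ g) := by rw [← h]
    have h3 : algebraMap R K c ^ (N + 1) * (algebraMap R K c)⁻¹ = algebraMap R K c ^ N := by
      rw [pow_succ, mul_assoc, mul_inv_cancel₀ hc1, mul_one]
    rw [h3] at h2
    linear_combination h2
  have h4 : c ^ N * (1 - r * c) ∈ p := by
    have : c ^ N * (1 - r * c) = d * (c * y) := by linear_combination h1
    rw [this]
    exact p.mul_mem_right _ hd
  rcases hp.mem_or_mem h4 with h5 | h5
  · exact hcp (hp.mem_of_pow_mem N h5)
  · apply hm.ne_top
    rw [Ideal.eq_top_iff_one]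
    have h6 := m.add_mem (hpm h5) (m.mul_mem_left r hcm)
    rwa [sub_add_cancel] at h6

omit [IsDomain R] in
/-- a relation with a coefficient outside a prime ideal -/
lemma unit_coeff {m : Ideal R}
    (hint : ∀ z : K, IsIntegral R z → ∃ r : R, algebraMap R K r = z) (z : K) :
    ∀ (n : ℕ) (F : R[X]), F.natDegree ≤ n → (∃ i, F.coeff i ∉ m) → aeval z F = 0 →
      (∃ s ∉ m, ∃ a : R, z * algebraMap R K s = algebraMap R K a) ∨
      (∃ c : R, ∃ s ∉ m, z * algebraMap R K c = algebraMap R K s) := by
  have hinj : Function.Injective (algebraMap R K) := FaithfulSMul.algebraMap_injective R K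
  intro n
  induction n with
  | zero =>
    intro F hF hex h0
    obtain ⟨i, hi⟩ := hex
    exfalso
    apply hi
    have hF' := eq_C_of_natDegree_eq_zero (Nat.le_zero.1 hF)
    rw [hF', aeval_C, map_eq_zero_iff _ hinj] at h0
    rw [hF', h0, C_0, coeff_zero]
    exact m.zero_mem
  | succ n ih =>
    intro F hF hex h0
    by_cases hd : F.natDegree ≤ n
    · exact ih F hd hex h0
    have hdeg : F.natDegree = n + 1 := by omega
    obtain ⟨w, hw⟩ := hint _ (isIntegral_leadingCoeff_smul F z h0)
    rw [Algebra.smul_def] at hw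
    by_cases hl : F.leadingCoeff ∈ m
    · have hG0 : aeval z (F.eraseLead + C w * X ^ n) = 0 := by
        rw [map_add, map_mul, map_pow, aeval_C, aeval_X, hw]
        have h1 := congrArg (aeval z) F.eraseLead_add_C_mul_X_pow
        rw [h0, map_add, map_mul, map_pow, aeval_C, aeval_X, hdeg] at h1
        linear_combination h1
      have hGd : (F.eraseLead + C w * X ^ n).natDegree ≤ n := by
        refine (natDegree_add_le _ _).trans (max_le ?_ (natDegree_C_mul_X_pow_le w n))
        have := F.eraseLead_natDegree_le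
        omega
      by_cases hG : ∃ i, (F.eraseLead + C w * X ^ n).coeff i ∉ m
      · exact ih _ hGd hG hG0
      · push Not at hG
        right
        refine ⟨F.leadingCoeff, w, ?_, ?_⟩
        · intro hwm
          obtain ⟨i, hi⟩ := hex
          apply hi
          have h2 := hG i
          rw [coeff_add, coeff_C_mul_X_pow, eraseLead_coeff] at h2
          by_cases hi1 : i = F.natDegree
          · rw [hi1]
            exact hl
          rw [if_neg hi1] at h2
          by_cases hi2 : i = n
          · rw [if_pos hi2] at h2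
            exact (Ideal.add_mem_iff_left m hwm).1 h2
          · rwa [if_neg hi2, add_zero] at h2
        · rw [hw, mul_comm]
    · left
      exact ⟨F.leadingCoeff, hl, w, by rw [hw, mul_comm]⟩

/-- the condition implies: `z` or its inverse lies in the localization at `m` -/
lemma Cond.val [IsFractionRing R K] (hP : Cond R K) {m : Ideal R} (hm : m.IsPrime) (z : K) :
    (∃ s ∉ m, ∃ a : R, z * algebraMap R K s = algebraMap R K a) ∨
      (∃ c : R, ∃ s ∉ m, z * algebraMap R K c = algebraMap R K s) := by
  have hinj : Function.Injective (algebraMap R K) := FaithfulSMul.algebraMap_injective R K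
  obtain ⟨a, b, hb, hab⟩ := IsFractionRing.div_surjective (A := R) z
  have hb0 : b ≠ 0 := nonZeroDivisors.ne_zero hb
  have hb1 : algebraMap R K b ≠ 0 := by
    rw [Ne, map_eq_zero_iff _ hinj]
    exact hb0
  by_cases hbm : b ∈ m
  · obtain ⟨r, g, h⟩ := hP.poly z (u := algebraMap R K b) (Subalgebra.algebraMap_mem _ _) hb1
    refine unit_coeff (fun z hz => hP.mem_of_isIntegral hz) z _ (X - C r - C b * g) le_rfl
      ⟨1, ?_⟩ ?_
    · rw [coeff_sub, coeff_sub, coeff_X_one, coeff_C_of_ne_zero (by norm_num : (1 : ℕ) ≠ 0),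
        coeff_C_mul, sub_zero]
      intro h1
      apply hm.ne_top
      rw [Ideal.eq_top_iff_one]
      have h2 := m.add_mem h1 (m.mul_mem_right (g.coeff 1) hbm)
      rwa [sub_add_cancel] at h2
    · rw [map_sub, map_sub, map_mul, aeval_X, aeval_C, aeval_C]
      linear_combination h
  · left
    exact ⟨b, hbm, a, by rw [← hab, div_mul_cancel₀ _ hb1]⟩

/-- the condition implies that `R` is a Pruefer domain -/
lemma Cond.isPruferDomain [IsFractionRing R K] (hP : Cond R K) : IsPruferDomain R := by
  intro P hPm
  have hinj : Function.Injective (algebraMap R K) := FaithfulSMul.algebraMap_injective R K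
  have hPp : P.IsPrime := hPm.isPrime
  refine { cond' := fun x y => ?_ }
  obtain ⟨a, s, rfl⟩ := IsLocalization.exists_mk'_eq P.primeCompl x
  obtain ⟨b, t, rfl⟩ := IsLocalization.exists_mk'_eq P.primeCompl y
  by_cases hb : b = 0
  · refine ⟨0, Or.inl ?_⟩
    rw [hb, IsLocalization.mk'_zero, mul_zero]
  have hb1 : algebraMap R K b ≠ 0 := by
    rw [Ne, map_eq_zero_iff _ hinj]
    exact hb
  have hz : algebraMap R K a / algebraMap R K b * algebraMap R K b = algebraMap R K a :=
    div_mul_cancel₀ _ hb1
  rcases hP.val hPp (algebraMap R K a / algebraMap R K b) with ⟨s', hs', a', h⟩ | ⟨c, s', hs', h⟩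
  · have h1 : a * s' = a' * b := by
      apply hinj
      rw [map_mul, map_mul]
      linear_combination (-(algebraMap R K s')) * hz + algebraMap R K b * h
    refine ⟨IsLocalization.mk' _ (a' * t) (⟨s', hs'⟩ * s), Or.inr ?_⟩
    rw [← IsLocalization.mk'_mul, IsLocalization.mk'_eq_iff_eq]
    apply congrArg
    rw [Submonoid.coe_mul, Submonoid.coe_mul]
    linear_combination (-((s : R) * t)) * h1
  · have h1 : a * c = s' * b := by
      apply hinj
      rw [map_mul, map_mul]
      linear_combination (-(algebraMap R K c)) * hz + algebraMap R K b * h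
    refine ⟨IsLocalization.mk' _ (c * s) (⟨s', hs'⟩ * t), Or.inl ?_⟩
    rw [← IsLocalization.mk'_mul, IsLocalization.mk'_eq_iff_eq]
    apply congrArg
    rw [Submonoid.coe_mul, Submonoid.coe_mul]
    linear_combination ((s : R) * t) * h1

/-! ### Sufficiency -/

omit [IsDomain R] [FaithfulSMul R K] in
/-- the condition holds if `R` is a field and `K` is algebraic over `R` -/
lemma cond_of_field (hR : IsField R) (hK : Algebra.IsAlgebraic R K) : Cond R K := by
  intro z u hu
  refine ⟨0, u⁻¹ * z, ?_, ?_⟩
  · refine Subalgebra.mul_mem _ ?_ (Algebra.subset_adjoin (by simp))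
    let _ : Field R := hR.toField
    have : u⁻¹ ∈ Algebra.adjoin R {u} :=
      Subalgebra.inv_mem_of_algebraic (K := R) (L := K) (Algebra.adjoin R {u})
        (x := ⟨u, Algebra.self_mem_adjoin_singleton R u⟩) (hK.isAlgebraic u)
    exact Algebra.adjoin_mono (by simp) this
  · rw [map_zero, zero_add, mul_inv_cancel_left₀ hu]

/-- the condition holds for Pruefer domains of dimension at most one and their fields of
fractions -/
lemma cond_of_prufer [IsFractionRing R K] (hR : IsPruferDomain R) (hd : Ring.DimensionLEOne R) :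
    Cond R K := by
  have hinj : Function.Injective (algebraMap R K) := FaithfulSMul.algebraMap_injective R K
  intro z u hu
  have hzA : z ∈ Algebra.adjoin R {z, u} := Algebra.subset_adjoin (by simp)
  -- the numerator of `u`
  obtain ⟨u₁, u₂, hu₂, huu⟩ := IsFractionRing.div_surjective (A := R) u
  have hu₂0 : u₂ ≠ 0 := nonZeroDivisors.ne_zero hu₂
  have hu₂1 : algebraMap R K u₂ ≠ 0 := by
    rw [Ne, map_eq_zero_iff _ hinj]
    exact hu₂0
  have hu₁ : u₁ ≠ 0 := by
    rintro rfl
    rw [map_zero, zero_div] at huu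
    exact hu huu.symm
  have hu₁' : algebraMap R K u₁ = u * algebraMap R K u₂ := by
    rw [← huu, div_mul_cancel₀ _ hu₂1]
  -- the ideal of denominators
  let I : Ideal R :=
    { carrier := {t | ∃ (r : R) (y : K), y ∈ Algebra.adjoin R {z, u} ∧
        algebraMap R K t * z = algebraMap R K r + u * y}
      zero_mem' := ⟨0, 0, Subalgebra.zero_mem _, by simp⟩
      add_mem' := by
        rintro t t' ⟨r, y, hy, h⟩ ⟨r', y', hy', h'⟩
        refine ⟨r + r', y + y', Subalgebra.add_mem _ hy hy', ?_⟩
        rw [map_add, map_add]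
        linear_combination h + h'
      smul_mem' := by
        rintro c t ⟨r, y, hy, h⟩
        refine ⟨c * r, algebraMap R K c * y, Subalgebra.mul_mem _ (Subalgebra.algebraMap_mem _ _) hy,
          ?_⟩
        rw [smul_eq_mul, map_mul, map_mul]
        linear_combination algebraMap R K c * h }
  suffices hI : I = ⊤ by
    have h1 : (1 : R) ∈ I := by rw [hI]; trivial
    obtain ⟨r, y, hy, h⟩ := h1
    refine ⟨r, y, hy, ?_⟩
    rw [← h, map_one, one_mul]
  by_contra hI
  obtain ⟨m, hm, hIm⟩ := I.exists_le_maximal hI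
  have hmp : m.IsPrime := hm.isPrime
  -- elements `t` with `t z ∈ R` lie in `m`
  have hin : ∀ t a : R, algebraMap R K t * z = algebraMap R K a → t ∈ m := by
    intro t a h
    exact hIm ⟨a, 0, Subalgebra.zero_mem _, by rw [mul_zero, add_zero]; exact h⟩
  obtain ⟨a, b, hb, hab⟩ := IsFractionRing.div_surjective (A := R) z
  have hb0 : b ≠ 0 := nonZeroDivisors.ne_zero hb
  have hb1 : algebraMap R K b ≠ 0 := by
    rw [Ne, map_eq_zero_iff _ hinj]
    exact hb0
  have hza : algebraMap R K b * z = algebraMap R K a := by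
    rw [← hab, mul_div_cancel₀ _ hb1]
  have hV := hR m
  have hcase : (∃ s ∉ m, ∃ c : R, s * a = c * b) ∨ (∃ s ∉ m, ∃ c : R, s * b = c * a) := by
    have hinj' : Function.Injective (algebraMap R (Localization m.primeCompl)) :=
      IsLocalization.injective _ m.primeCompl_le_nonZeroDivisors
    obtain ⟨w, hw⟩ := ValuationRing.cond (algebraMap R (Localization m.primeCompl) a)
      (algebraMap R (Localization m.primeCompl) b)
    obtain ⟨c, s, rfl⟩ := IsLocalization.exists_mk'_eq m.primeCompl w
    have hspec := IsLocalization.mk'_spec (Localization m.primeCompl) c s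
    rcases hw with hw | hw
    · right
      refine ⟨s, s.2, c, hinj' ?_⟩
      rw [map_mul, map_mul, ← hw, ← hspec]
      ring
    · left
      refine ⟨s, s.2, c, hinj' ?_⟩
      rw [map_mul, map_mul, ← hw, ← hspec]
      ring
  rcases hcase with ⟨s, hs, c, h⟩ | ⟨s, hs, c, h⟩
  · apply hs
    apply hin s c
    apply mul_left_cancel₀ hb1
    have h' := congrArg (algebraMap R K) h
    rw [map_mul, map_mul] at h'
    linear_combination (algebraMap R K s) * hza + h'
  · -- `z = s / c`
    have h' := congrArg (algebraMap R K) h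
    rw [map_mul, map_mul] at h'
    have hzc : algebraMap R K c * z = algebraMap R K s := by
      apply mul_left_cancel₀ hb1
      linear_combination (algebraMap R K c) * hza - h'
    have hcm : c ∈ m := hin c s hzc
    have hex : ∃ (t : R) (N : ℕ) (d : R), t ∉ m ∧ t * c ^ N = u₁ * d := by
      by_contra hno
      push Not at hno
      have hdisj : Disjoint ((Ideal.span {u₁} : Ideal R) : Set R)
          ((m.primeCompl ⊔ Submonoid.powers c : Submonoid R) : Set R) := by
        rw [Set.disjoint_left]
        intro x hx hx'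
        obtain ⟨d, hd⟩ := Ideal.mem_span_singleton.1 hx
        obtain ⟨t, ht, w, hw, htw⟩ := Submonoid.mem_sup.1 hx'
        obtain ⟨N, rfl⟩ := hw
        exact hno t N d ht (by rw [← hd]; exact htw)
      obtain ⟨q, hq, hqu, hqd⟩ := Ideal.exists_le_prime_disjoint _ _ hdisj
      have hq0 : q ≠ ⊥ := by
        rintro rfl
        exact hu₁ (by simpa using hqu (Ideal.mem_span_singleton_self u₁))
      have hqm : q ≤ m := by
        intro x hx
        by_contra hxm
        exact (Set.disjoint_left.1 hqd) hx (Submonoid.mem_sup_left hxm)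
      have hqmax : q.IsMaximal := hd.maximalOfPrime hq0 hq
      have hqeq : q = m := hqmax.eq_of_le hm.ne_top hqm
      rw [hqeq] at hqd
      exact (Set.disjoint_left.1 hqd) hcm (Submonoid.mem_sup_right (Submonoid.mem_powers c))
    obtain ⟨t, N, d, ht, htN⟩ := hex
    have hmem : t * s ^ N ∈ I := by
      refine ⟨0, algebraMap R K (u₂ * d) * z ^ (N + 1), ?_, ?_⟩
      · exact Subalgebra.mul_mem _ (Subalgebra.algebraMap_mem _ _) (Subalgebra.pow_mem _ hzA _)
      · have h2 := congrArg (algebraMap R K) htN
        rw [map_mul, map_mul, map_pow, hu₁'] at h2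
        rw [map_mul, map_pow, ← hzc, map_mul, map_zero, zero_add]
        linear_combination z ^ (N + 1) * h2
    rcases hmp.mem_or_mem (hIm hmem) with h3 | h3
    · exact ht h3
    · exact hs (hmp.mem_of_pow_mem N h3)

/-- **The algebraic condition.** -/
theorem cond_iff : Cond R K ↔ (IsField R ∧ Algebra.IsAlgebraic R K) ∨
    (IsFractionRing R K ∧ Ring.DimensionLEOne R ∧ IsPruferDomain R) := by
  constructor
  · intro hP
    by_cases hR : IsField R
    · exact Or.inl ⟨hR, hP.isAlgebraic⟩
    · right
      have hfr : IsFractionRing R K := by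
        refine IsFractionRing.of_field _ _ fun z => ?_
        obtain ⟨a, b, hb, h⟩ := hP.exists_fraction hR z
        refine ⟨a, b, ?_⟩
        have hb1 : algebraMap R K b ≠ 0 := by
          rw [Ne, map_eq_zero_iff _ (FaithfulSMul.algebraMap_injective R K)]
          exact hb
        rw [← h, mul_div_cancel_right₀ _ hb1]
      exact ⟨hfr, hP.dimensionLEOne, hP.isPruferDomain⟩
  · rintro (⟨hR, hK⟩ | ⟨hfr, hd, hp⟩)
    · exact cond_of_field hR hK
    · exact cond_of_prufer hp hd

omit [IsDomain R] [FaithfulSMul R K] in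
/-- the condition only depends on the image of the ring -/
lemma Cond.of_range {R' : Type*} [CommRing R'] [Algebra R' K]
    (h : ∀ r : R, ∃ r' : R', algebraMap R' K r' = algebraMap R K r) (hP : Cond R K) :
    Cond R' K := by
  intro z u hu
  obtain ⟨r, y, hy, hz⟩ := hP z u hu
  obtain ⟨r', hr'⟩ := h r
  refine ⟨r', y, ?_, by rw [hr']; exact hz⟩
  clear hz
  induction hy using Algebra.adjoin_induction with
  | mem x hx => exact Algebra.subset_adjoin hx
  | algebraMap r =>
    obtain ⟨r', hr'⟩ := h r
    rw [← hr']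
    exact Subalgebra.algebraMap_mem _ _
  | add x y _ _ hx hy => exact Subalgebra.add_mem _ hx hy
  | mul x y _ _ hx hy => exact Subalgebra.mul_mem _ hx hy

end

/-- Dedekind domains are Pruefer domains. -/
lemma isPruferDomain_of_dedekind (R : Type*) [CommRing R] [IsDedekindDomain R] :
    IsPruferDomain R := by
  intro P hP
  infer_instance

end Pool.Agent.KS6_99.EN
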