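import Pool.Agent.KS6_99.EN.Alg

/-!
# Principal ideal domains and nets of additive subgroups
-/

set_option autoImplicit false

namespace Pool.Agent.KS6_99.EN

/-- The case of integral domains. -/
theorem all_closed_iff (R K : Type*) [CommRing R] [IsDomain R] [Field K] [Algebra R K]
    [FaithfulSMul R K] (n : ℕ) (hn : 2 ≤ n) :
    (∀ N : ElementaryNet R K n, N.Irreducible → N.Closed) ↔
      Function.Surjective (algebraMap R K) ∨ (3 ≤ n ∧
        ((IsField R ∧ Algebra.IsAlgebraic R K) ∨
          (IsFractionRing R K ∧ Ring.DimensionLEOne R ∧ IsPruferDomain R))) := by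
  rw [all_closed_iff_cond hn, cond_iff]

/-- The case of principal ideal domains. -/
theorem all_closed_iff_pid (R k K : Type*) [CommRing R] [IsDomain R] [IsPrincipalIdealRing R]
    [Field k] [Algebra R k] [IsFractionRing R k] [Field K] [Algebra k K] [Algebra R K]
    [IsScalarTower R k K] [Algebra.IsAlgebraic k K] (n : ℕ) (hn : 2 ≤ n) :
    (∀ N : ElementaryNet R K n, N.Irreducible → N.Closed) ↔
      Function.Surjective (algebraMap R K) ∨
        (3 ≤ n ∧ (IsField R ∨ Function.Surjective (algebraMap k K))) := by
  have hinj : Function.Injective (algebraMap R K) := by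
    rw [IsScalarTower.algebraMap_eq R k K]
    exact (algebraMap k K).injective.comp (IsFractionRing.injective R k)
  have : FaithfulSMul R K := (faithfulSMul_iff_algebraMap_injective R K).2 hinj
  rw [all_closed_iff R K n hn]
  apply or_congr_right
  apply and_congr_right
  intro _
  constructor
  · rintro (⟨h, _⟩ | ⟨h, _, _⟩)
    · exact Or.inl h
    · right
      intro x
      obtain ⟨a, b, hb, hab⟩ := IsFractionRing.div_surjective (A := R) x
      refine ⟨algebraMap R k a / algebraMap R k b, ?_⟩
      rw [map_div₀, ← IsScalarTower.algebraMap_apply, ← IsScalarTower.algebraMap_apply, hab]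
  · rintro (h | h)
    · left
      exact ⟨h, (IsFractionRing.comap_isAlgebraic_iff (A := R) (K := k) (C := K)).2 inferInstance⟩
    · right
      refine ⟨IsFractionRing.of_field _ _ fun z => ?_, inferInstance,
        isPruferDomain_of_dedekind R⟩
      obtain ⟨x, rfl⟩ := h z
      obtain ⟨a, b, hb, hab⟩ := IsFractionRing.div_surjective (A := R) x
      refine ⟨a, b, ?_⟩
      rw [← hab, map_div₀, ← IsScalarTower.algebraMap_apply, ← IsScalarTower.algebraMap_apply]

/-- The case of additive subgroups. -/
theorem all_closed_iff_additive (K : Type*) [Field K] (n : ℕ) (hn : 2 ≤ n) :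
    (∀ N : ElementaryNet ℤ K n, N.Irreducible → N.Closed) ↔
      (∃ p : ℕ, p.Prime ∧ Nonempty (K ≃+* ZMod p)) ∨
        (3 ≤ n ∧ (Nonempty (K ≃+* ℚ) ∨
          ∃ (p : ℕ) (_ : Fact p.Prime) (_ : Algebra (ZMod p) K), Algebra.IsAlgebraic (ZMod p) K)) := by
  rw [all_closed_iff_cond hn]
  have hZ : ¬ IsField ℤ := Int.not_isField
  apply or_congr
  · constructor
    · intro hs
      obtain ⟨p, hp⟩ := CharP.exists K
      rcases CharP.char_is_prime_or_zero K p with hp' | rfl
      · refine ⟨p, hp', ?_⟩
        have : Fact p.Prime := ⟨hp'⟩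
        refine ⟨(RingEquiv.ofBijective (ZMod.castHom (dvd_refl p) K) ⟨?_, ?_⟩).symm⟩
        · exact (ZMod.castHom (dvd_refl p) K).injective
        · intro x
          obtain ⟨m, hm⟩ := hs x
          refine ⟨(m : ZMod p), ?_⟩
          rw [map_intCast]
          simpa using hm
      · exfalso
        have : CharZero K := CharP.charP_to_charZero K
        apply hZ
        have hb : Function.Bijective (algebraMap ℤ K) := by
          refine ⟨?_, hs⟩
          intro a b hab
          simpa using hab
        exact (RingEquiv.ofBijective _ hb).toMulEquiv.isField (Field.toIsField K)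
    · rintro ⟨p, hp, ⟨e⟩⟩ x
      have : Fact p.Prime := ⟨hp⟩
      refine ⟨((e x).val : ℤ), ?_⟩
      apply e.injective
      rw [eq_intCast, map_intCast, Int.cast_natCast, ZMod.natCast_zmod_val]
  · apply and_congr_right
    intro _
    constructor
    · intro hP
      obtain ⟨p, hp⟩ := CharP.exists K
      rcases CharP.char_is_prime_or_zero K p with hp' | rfl
      · right
        have : Fact p.Prime := ⟨hp'⟩
        let alg : Algebra (ZMod p) K := ZMod.algebra K p
        refine ⟨p, this, alg, ?_⟩
        have hP' : Cond (ZMod p) K := by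
          refine Cond.of_range (R := ℤ) (R' := ZMod p) (fun r => ⟨(r : ZMod p), ?_⟩) hP
          rw [map_intCast, eq_intCast]
        exact hP'.isAlgebraic
      · left
        have : CharZero K := CharP.charP_to_charZero K
        rcases cond_iff.1 hP with ⟨h, _⟩ | ⟨h, _, _⟩
        · exact absurd h hZ
        · exact ⟨(IsLocalization.algEquiv (nonZeroDivisors ℤ) K ℚ).toRingEquiv⟩
    · rintro (⟨⟨e⟩⟩ | ⟨p, hp, alg, h⟩)
      · have : CharZero K := by
          refine ⟨fun a b hab => ?_⟩
          have := congrArg e hab
          simpa using this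
        have hfr : IsFractionRing ℤ K := by
          refine IsFractionRing.of_field _ _ fun z => ?_
          refine ⟨(e z).num, ((e z).den : ℤ), ?_⟩
          apply e.injective
          rw [map_div₀]
          simp [Rat.num_div_den]
        exact cond_iff.2 (Or.inr ⟨hfr, inferInstance, isPruferDomain_of_dedekind ℤ⟩)
      · have hP' : Cond (ZMod p) K := cond_of_field (Field.toIsField _) h
        refine Cond.of_range (R := ZMod p) (R' := ℤ) (fun r => ⟨(r.val : ℤ), ?_⟩) hP'
        have h1 : ((r.val : ℤ) : ZMod p) = r := by
          rw [Int.cast_natCast, ZMod.natCast_zmod_val]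
        rw [eq_intCast, ← map_intCast (algebraMap (ZMod p) K), h1]

end Pool.Agent.KS6_99.EN
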