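import Mathlib

/-!
# Elementary nets of `R`-modules: reduction of closedness to an algebraic condition

`R` is any commutative ring with a homomorphism to a field `K`. We show that for `n ≥ 3` all
irreducible elementary nets of order `n` over `K` consisting of `R`-modules are closed if and
only if `z ∈ R + u R[z, u]` for all `z, u ∈ K` with `u ≠ 0`.
-/

set_option autoImplicit false

open Matrix

namespace Pool.Agent.KS6_99.EN

/-- An elementary net of order `n` over `K` consisting of `R`-modules: a family of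
`R`-submodules `σ i j` of `K`, indexed by the pairs `i ≠ j` (the diagonal values of the function
`σ` play no role), such that `σ i r * σ r j ⊆ σ i j` whenever `i, r, j` are pairwise distinct. -/
structure ElementaryNet (R K : Type*) [CommRing R] [Field K] [Algebra R K] (n : ℕ) where
  /-- the modules `σ i j` (only used for `i ≠ j`) -/
  σ : Fin n → Fin n → Submodule R K
  mul_mem' : ∀ i r j : Fin n, i ≠ r → r ≠ j → i ≠ j → ∀ a ∈ σ i r, ∀ b ∈ σ r j, a * b ∈ σ i j

namespace ElementaryNet

variable {R K : Type*} [CommRing R] [Field K] [Algebra R K] {n : ℕ}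

/-- The net is irreducible: all `σ i j`, `i ≠ j`, are nonzero. -/
def Irreducible (N : ElementaryNet R K n) : Prop :=
  ∀ i j : Fin n, i ≠ j → N.σ i j ≠ ⊥

/-- The elementary net subgroup `E(σ)` of `GL(n, K)`, generated by the elementary transvections
`t i j a = e + a e_{ij}` with `i ≠ j` and `a ∈ σ i j`. -/
def E (N : ElementaryNet R K n) : Subgroup (GL (Fin n) K) :=
  Subgroup.closure {g | ∃ i j : Fin n, i ≠ j ∧ ∃ a ∈ N.σ i j,
    (g : Matrix (Fin n) (Fin n) K) = 1 + Matrix.single i j a}

/-- The net is closed: every elementary transvection `t i j a` in `E(σ)` has `a ∈ σ i j`. -/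
def Closed (N : ElementaryNet R K n) : Prop :=
  ∀ i j : Fin n, i ≠ j → ∀ a : K, ∀ g ∈ N.E,
    (g : Matrix (Fin n) (Fin n) K) = 1 + Matrix.single i j a → a ∈ N.σ i j

end ElementaryNet

/-! ### Transvections as elements of `GL` -/

section Transvections

variable {K : Type*} [Field K] {n : ℕ}

/-- the transvection `e + a e_{ij}` as an element of `GL(n, K)` -/
def tr (i j : Fin n) (h : i ≠ j) (a : K) : GL (Fin n) K where
  val := 1 + Matrix.single i j a
  inv := 1 + Matrix.single i j (-a)
  val_inv := by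
    rw [mul_add, add_mul, add_mul, Matrix.single_mul_single_of_ne _ _ _ _ h.symm, ← add_assoc]
    simp [add_assoc, ← Matrix.single_add]
  inv_val := by
    rw [mul_add, add_mul, add_mul, Matrix.single_mul_single_of_ne _ _ _ _ h.symm, ← add_assoc]
    simp [add_assoc, ← Matrix.single_add]

lemma conj_tr (i j : Fin n) (h : i ≠ j) (c : K) :
    tr i j h 1 * tr j i h.symm (-1) * tr i j h 1 * tr j i h.symm c =
      tr i j h (-c) * (tr i j h 1 * tr j i h.symm (-1) * tr i j h 1) := by
  apply Units.ext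
  show ((1 + Matrix.single i j (1 : K)) * (1 + Matrix.single j i (-1 : K)) *
      (1 + Matrix.single i j (1 : K)) * (1 + Matrix.single j i c)) =
    (1 + Matrix.single i j (-c)) * ((1 + Matrix.single i j (1 : K)) *
      (1 + Matrix.single j i (-1 : K)) * (1 + Matrix.single i j (1 : K)))
  simp only [mul_add, add_mul, one_mul, mul_one, Matrix.single_mul_single_same,
    Matrix.single_mul_single_of_ne _ _ _ _ h, Matrix.single_mul_single_of_ne _ _ _ _ h.symm,
    add_zero, mul_neg, neg_mul]
  ext a b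
  simp only [Matrix.add_apply, Matrix.single_apply, Matrix.one_apply]
  split_ifs <;> ring_nf

end Transvections

section General

variable {R K : Type*} [CommRing R] [Field K] [Algebra R K] {n : ℕ}

lemma tr_mem (N : ElementaryNet R K n) {i j : Fin n} (h : i ≠ j) {a : K} (ha : a ∈ N.σ i j) :
    tr i j h a ∈ N.E :=
  Subgroup.subset_closure ⟨i, j, h, a, ha, rfl⟩

/-- If `1 ∈ σ i j`, `1 ∈ σ j i` and `σ j i` is not contained in `σ i j`, the net is not closed. -/
lemma not_closed (N : ElementaryNet R K n) {i j : Fin n} (h : i ≠ j) (h1 : (1 : K) ∈ N.σ i j)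
    (h2 : (1 : K) ∈ N.σ j i) {c : K} (hc : c ∈ N.σ j i) (hc' : c ∉ N.σ i j) : ¬ N.Closed := by
  intro hN
  apply hc'
  have hw : tr i j h 1 * tr j i h.symm (-1) * tr i j h 1 ∈ N.E :=
    mul_mem (mul_mem (tr_mem N h h1) (tr_mem N h.symm (neg_mem h2))) (tr_mem N h h1)
  have key : tr i j h (-c) ∈ N.E := by
    have h3 : tr i j h (-c) = (tr i j h 1 * tr j i h.symm (-1) * tr i j h 1) *
        tr j i h.symm c * (tr i j h 1 * tr j i h.symm (-1) * tr i j h 1)⁻¹ := by
      rw [eq_mul_inv_iff_mul_eq]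
      exact (conj_tr i j h c).symm
    rw [h3]
    exact mul_mem (mul_mem hw (tr_mem N h.symm hc)) (inv_mem hw)
  have := hN i j h (-c) _ key rfl
  simpa using neg_mem this

/-- the algebraic condition: `z ∈ R + u R[z, u]` for all `z` and all `u ≠ 0` -/
def Cond (R K : Type*) [CommRing R] [Field K] [Algebra R K] : Prop :=
  ∀ z u : K, u ≠ 0 → ∃ (r : R) (y : K), y ∈ Algebra.adjoin R {z, u} ∧ z = algebraMap R K r + u * y

/-! ### Multipliers -/

/-- multipliers of a submodule -/
def Mult (M : Submodule R K) (x : K) : Prop := ∀ z ∈ M, x * z ∈ M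

lemma Mult.mul {M : Submodule R K} {x y : K} (hx : Mult M x) (hy : Mult M y) : Mult M (x * y) := by
  intro z hz
  rw [mul_assoc]
  exact hx _ (hy _ hz)

lemma Mult.add {M : Submodule R K} {x y : K} (hx : Mult M x) (hy : Mult M y) : Mult M (x + y) := by
  intro z hz
  rw [add_mul]
  exact add_mem (hx _ hz) (hy _ hz)

lemma Mult.algebraMap (M : Submodule R K) (r : R) : Mult M (algebraMap R K r) := by
  intro z hz
  rw [← Algebra.smul_def]
  exact M.smul_mem r hz

lemma Mult.one (M : Submodule R K) : Mult M (1 : K) := by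
  intro z hz
  rwa [one_mul]

lemma Mult.sum {ι : Type*} (s : Finset ι) {M : Submodule R K} {x : ι → K}
    (h : ∀ i ∈ s, Mult M (x i)) : Mult M (∑ i ∈ s, x i) := by
  intro z hz
  rw [Finset.sum_mul]
  exact sum_mem fun i hi => h i hi z hz

lemma exists_third (hn : 3 ≤ n) (i j : Fin n) : ∃ r : Fin n, r ≠ i ∧ r ≠ j := by
  by_contra hcon
  push Not at hcon
  have h1 : (Finset.univ : Finset (Fin n)) ⊆ {i, j} := by
    intro r _
    rw [Finset.mem_insert, Finset.mem_singleton]
    by_cases h : r = i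
    · exact Or.inl h
    · exact Or.inr (hcon r h)
  have h2 := Finset.card_le_card h1
  have h3 := Finset.card_le_two (a := i) (b := j)
  rw [Finset.card_univ, Fintype.card_fin] at h2
  omega

/-- If all `z ^ m u` with `m ≥ 0` are multipliers, so are all elements of `u R[z, u]`. -/
lemma mult_of_adjoin {M : Submodule R K} {z u : K} (h : ∀ m : ℕ, Mult M (z ^ m * u)) {y : K}
    (hy : y ∈ Algebra.adjoin R {z, u}) : Mult M (u * y) := by
  suffices hs : ∀ x : K, (∀ m : ℕ, Mult M (z ^ m * u * x)) →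
      ∀ m : ℕ, Mult M (z ^ m * u * (y * x)) by
    have := hs 1 (fun m => by rw [mul_one]; exact h m) 0
    rwa [pow_zero, one_mul, mul_one] at this
  induction hy using Algebra.adjoin_induction with
  | mem x hx =>
    intro w hw m
    rcases hx with rfl | hx
    · have := hw (m + 1)
      have e : x ^ (m + 1) * u * w = x ^ m * u * (x * w) := by ring
      rwa [e] at this
    · rw [Set.mem_singleton_iff] at hx
      subst hx
      have := (h 0).mul (hw m)
      have e : z ^ 0 * x * (z ^ m * x * w) = z ^ m * x * (x * w) := by ring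
      rwa [e] at this
  | algebraMap r =>
    intro w hw m
    have := (Mult.algebraMap M r).mul (hw m)
    have e : algebraMap R K r * (z ^ m * u * w) = z ^ m * u * (algebraMap R K r * w) := by ring
    rwa [e] at this
  | add x y _ _ hx hy =>
    intro w hw m
    rw [add_mul, mul_add]
    exact (hx w hw m).add (hy w hw m)
  | mul x y _ _ hx hy =>
    intro w hw m
    rw [mul_assoc x y w]
    exact hx (y * w) (hy w hw) m

/-- If `z` is a multiplier of `σ l r`, then `z` is a multiplier of `σ k l`. -/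
lemma mult_step (hP : Cond R K) (N : ElementaryNet R K n) (hN : N.Irreducible) {k l r : Fin n}
    (hkl : k ≠ l) (hrk : r ≠ k) (hrl : r ≠ l) {z : K} (hz : Mult (N.σ l r) z) :
    Mult (N.σ k l) z := by
  obtain ⟨p, hp, hp0⟩ := (N.σ l r).ne_bot_iff.1 (hN l r hrl.symm)
  obtain ⟨q, hq, hq0⟩ := (N.σ r l).ne_bot_iff.1 (hN r l hrl)
  have hpm : ∀ m : ℕ, z ^ m * p ∈ N.σ l r := by
    intro m
    induction m with
    | zero => rwa [pow_zero, one_mul]
    | succ m ih =>
      have := hz _ ih
      rwa [← mul_assoc, ← pow_succ'] at this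
  have hm : ∀ m : ℕ, Mult (N.σ k l) (z ^ m * (p * q)) := by
    intro m a ha
    have h1 := N.mul_mem' k l r hkl hrl.symm hrk.symm _ ha _ (hpm m)
    have h2 := N.mul_mem' k r l hrk.symm hrl hkl _ h1 _ hq
    have e : z ^ m * (p * q) * a = a * (z ^ m * p) * q := by ring
    rwa [e]
  obtain ⟨r', y, hy, hzy⟩ := hP z (p * q) (mul_ne_zero hp0 hq0)
  have h3 : Mult (N.σ k l) (algebraMap R K r' + p * q * y) :=
    (Mult.algebraMap _ _).add (mult_of_adjoin hm hy)
  rwa [← hzy] at h3

/-- products of elements of opposite modules are multipliers of all modules -/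
lemma mult_mul (hP : Cond R K) (hn : 3 ≤ n) (N : ElementaryNet R K n) (hN : N.Irreducible)
    {i j : Fin n}
    (hij : i ≠ j) {x y : K} (hx : x ∈ N.σ i j) (hy : y ∈ N.σ j i) (k l : Fin n) (hkl : k ≠ l) :
    Mult (N.σ k l) (x * y) := by
  have b1 : ∀ r, r ≠ i → r ≠ j → Mult (N.σ i r) (x * y) := by
    intro r hri hrj z hz
    rw [mul_assoc]
    exact N.mul_mem' i j r hij hrj.symm hri.symm _ hx _
      (N.mul_mem' j i r hij.symm hri.symm hrj.symm _ hy _ hz)
  have b2 : ∀ r, r ≠ i → r ≠ j → Mult (N.σ j r) (x * y) := by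
    intro r hri hrj z hz
    rw [mul_comm x, mul_assoc]
    exact N.mul_mem' j i r hij.symm hri.symm hrj.symm _ hy _
      (N.mul_mem' i j r hij hrj.symm hri.symm _ hx _ hz)
  have b3 : ∀ r, r ≠ i → r ≠ j → Mult (N.σ r i) (x * y) := by
    intro r hri hrj z hz
    have e : x * y * z = z * x * y := by ring
    rw [e]
    exact N.mul_mem' r j i hrj hij.symm hri _ (N.mul_mem' r i j hri hij hrj _ hz _ hx) _ hy
  have b4 : ∀ r, r ≠ i → r ≠ j → Mult (N.σ r j) (x * y) := by
    intro r hri hrj z hz
    have e : x * y * z = z * y * x := by ring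
    rw [e]
    exact N.mul_mem' r i j hri hij hrj _ (N.mul_mem' r j i hrj hij.symm hri _ hz _ hy) _ hx
  by_cases hl : l = i ∨ l = j
  · by_cases hk : k = i ∨ k = j
    · obtain ⟨r, hri, hrj⟩ := exists_third hn i j
      have hrk : r ≠ k := by
        rintro rfl
        rcases hk with h | h
        · exact hri h
        · exact hrj h
      have hrl : r ≠ l := by
        rintro rfl
        rcases hl with h | h
        · exact hri h
        · exact hrj h
      refine mult_step hP N hN hkl hrk hrl ?_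
      rcases hl with rfl | rfl
      · exact b1 r hri hrj
      · exact b2 r hri hrj
    · push Not at hk
      rcases hl with rfl | rfl
      · exact b3 k hk.1 hk.2
      · exact b4 k hk.1 hk.2
  · push Not at hl
    by_cases hk : k = i ∨ k = j
    · rcases hk with rfl | rfl
      · exact b1 l hl.1 hl.2
      · exact b2 l hl.1 hl.2
    · push Not at hk
      exact mult_step hP N hN hkl (Ne.symm hk.1) (Ne.symm hl.1) (b3 l hl.1 hl.2)

/-- the matrices with off-diagonal entries in the net and diagonal entries multipliers -/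
def Good (N : ElementaryNet R K n) (A : Matrix (Fin n) (Fin n) K) : Prop :=
  (∀ i j, i ≠ j → A i j ∈ N.σ i j) ∧ ∀ i k l, k ≠ l → Mult (N.σ k l) (A i i)

lemma good_tr (N : ElementaryNet R K n) {i j : Fin n} (h : i ≠ j) {a : K} (ha : a ∈ N.σ i j) :
    Good N (1 + Matrix.single i j a) := by
  constructor
  · intro k l hkl
    rw [Matrix.add_apply, Matrix.one_apply_ne hkl, zero_add, Matrix.single_apply]
    split_ifs with h1
    · obtain ⟨rfl, rfl⟩ := h1
      exact ha
    · exact zero_mem _
  · intro m k l hkl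
    rw [Matrix.add_apply, Matrix.one_apply_eq, Matrix.single_apply]
    have : ¬ (i = m ∧ j = m) := by
      rintro ⟨rfl, rfl⟩
      exact h rfl
    rw [if_neg this, add_zero]
    exact Mult.one _

lemma Good.mul (hP : Cond R K) (hn : 3 ≤ n) (N : ElementaryNet R K n) (hN : N.Irreducible)
    {A B : Matrix (Fin n) (Fin n) K} (hA : Good N A) (hB : Good N B) : Good N (A * B) := by
  constructor
  · intro i j hij
    rw [Matrix.mul_apply]
    refine sum_mem fun r _ => ?_
    by_cases hir : i = r
    · subst hir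
      exact hA.2 i i j hij _ (hB.1 i j hij)
    by_cases hrj : r = j
    · subst hrj
      rw [mul_comm]
      exact hB.2 r i r hij _ (hA.1 i r hir)
    exact N.mul_mem' i r j hir hrj hij _ (hA.1 i r hir) _ (hB.1 r j hrj)
  · intro i k l hkl
    rw [Matrix.mul_apply]
    refine Mult.sum _ fun r _ => ?_
    by_cases hir : i = r
    · subst hir
      exact (hA.2 i k l hkl).mul (hB.2 i k l hkl)
    exact mult_mul hP hn N hN hir (hA.1 i r hir) (hB.1 r i (Ne.symm hir)) k l hkl

lemma good_of_mem (hP : Cond R K) (hn : 3 ≤ n) (N : ElementaryNet R K n) (hN : N.Irreducible)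
    {g : GL (Fin n) K} (hg : g ∈ N.E) : Good N (g : Matrix (Fin n) (Fin n) K) := by
  suffices h : Good N (g : Matrix (Fin n) (Fin n) K) ∧
      Good N ((g⁻¹ : GL (Fin n) K) : Matrix (Fin n) (Fin n) K) from h.1
  induction hg using Subgroup.closure_induction with
  | mem g hg =>
    obtain ⟨i, j, hij, a, ha, hga⟩ := hg
    have h1 : g = tr i j hij a := Units.ext hga
    subst h1
    exact ⟨good_tr N hij ha, good_tr N hij (neg_mem ha)⟩
  | one =>
    have h1 : Good N (1 : Matrix (Fin n) (Fin n) K) := by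
      constructor
      · intro i j hij
        rw [Matrix.one_apply_ne hij]
        exact zero_mem _
      · intro i k l _
        rw [Matrix.one_apply_eq]
        exact Mult.one _
    rw [inv_one]
    exact ⟨h1, h1⟩
  | mul g h _ _ hg hh =>
    refine ⟨?_, ?_⟩
    · exact hg.1.mul hP hn N hN hh.1
    · rw [_root_.mul_inv_rev]
      exact hh.2.mul hP hn N hN hg.2
  | inv g _ hg =>
    rw [inv_inv]
    exact ⟨hg.2, hg.1⟩

/-- If the condition holds and `n ≥ 3`, all irreducible elementary nets are closed. -/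
theorem closed_of_cond (hP : Cond R K) (hn : 3 ≤ n) (N : ElementaryNet R K n)
    (hN : N.Irreducible) : N.Closed := by
  intro i j hij a g hg hga
  have h1 := (good_of_mem hP hn N hN hg).1 i j hij
  rw [hga, Matrix.add_apply, Matrix.one_apply_ne hij, zero_add, Matrix.single_apply_same] at h1
  exact h1

/-! ### Nets which are not closed -/

/-- the module `u A` -/
def uA (A : Subalgebra R K) (u : K) : Submodule R K :=
  (Subalgebra.toSubmodule A).map (LinearMap.mulLeft R u)

lemma mem_uA {A : Subalgebra R K} {u x : K} : x ∈ uA A u ↔ ∃ y ∈ A, u * y = x := by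
  simp [uA]

/-- the module `R + u A` -/
def ruA (A : Subalgebra R K) (u : K) : Submodule R K := 1 ⊔ uA A u

lemma uA_le (A : Subalgebra R K) {u : K} (hu : u ∈ A) : uA A u ≤ Subalgebra.toSubmodule A := by
  intro x hx
  obtain ⟨y, hy, rfl⟩ := mem_uA.1 hx
  exact A.mul_mem hu hy

lemma ruA_le (A : Subalgebra R K) {u : K} (hu : u ∈ A) : ruA A u ≤ Subalgebra.toSubmodule A := by
  refine sup_le ?_ (uA_le A hu)
  intro x hx
  obtain ⟨r, rfl⟩ := Submodule.mem_one.1 hx
  exact A.algebraMap_mem r

lemma mul_mem_uA {A : Subalgebra R K} {u x y : K} (hx : x ∈ uA A u) (hy : y ∈ A) :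
    x * y ∈ uA A u := by
  obtain ⟨z, hz, rfl⟩ := mem_uA.1 hx
  rw [mul_assoc]
  exact mem_uA.2 ⟨z * y, A.mul_mem hz hy, rfl⟩

/-- the net `σ₁₂ = R + u A`, `σ₁ⱼ = σ₂ⱼ = u A` for `j ≥ 3`, all other modules equal to `A` -/
def theNet (n : ℕ) (A : Subalgebra R K) (u : K) (hu : u ∈ A) : ElementaryNet R K n where
  σ i j := if (i : ℕ) = 0 ∧ (j : ℕ) = 1 then ruA A u
    else if (i : ℕ) ≤ 1 ∧ 2 ≤ (j : ℕ) then uA A u else Subalgebra.toSubmodule A
  mul_mem' := by
    intro i r j hir hrj hij a ha b hb
    have hir' : (i : ℕ) ≠ (r : ℕ) := fun h => hir (Fin.ext h)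
    have hrj' : (r : ℕ) ≠ (j : ℕ) := fun h => hrj (Fin.ext h)
    have hij' : (i : ℕ) ≠ (j : ℕ) := fun h => hij (Fin.ext h)
    have hle : ∀ i j : Fin n, (if (i : ℕ) = 0 ∧ (j : ℕ) = 1 then ruA A u
        else if (i : ℕ) ≤ 1 ∧ 2 ≤ (j : ℕ) then uA A u else Subalgebra.toSubmodule A) ≤
        Subalgebra.toSubmodule A := by
      intro i j
      split_ifs
      · exact ruA_le A hu
      · exact uA_le A hu
      · exact le_rfl
    have ha' : a ∈ A := hle _ _ ha
    have hb' : b ∈ A := hle _ _ hb
    by_cases h1 : (i : ℕ) = 0 ∧ (j : ℕ) = 1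
    · rw [if_pos h1]
      have h2 : ¬ ((i : ℕ) = 0 ∧ (r : ℕ) = 1) := by omega
      have h3 : (i : ℕ) ≤ 1 ∧ 2 ≤ (r : ℕ) := by omega
      rw [if_neg h2, if_pos h3] at ha
      exact Submodule.mem_sup_right (mul_mem_uA ha hb')
    rw [if_neg h1]
    by_cases h2 : (i : ℕ) ≤ 1 ∧ 2 ≤ (j : ℕ)
    · rw [if_pos h2]
      by_cases h3 : 2 ≤ (r : ℕ)
      · have h4 : ¬ ((i : ℕ) = 0 ∧ (r : ℕ) = 1) := by omega
        rw [if_neg h4, if_pos ⟨h2.1, h3⟩] at ha
        exact mul_mem_uA ha hb'
      · have h4 : ¬ ((r : ℕ) = 0 ∧ (j : ℕ) = 1) := by omega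
        have h5 : (r : ℕ) ≤ 1 ∧ 2 ≤ (j : ℕ) := by omega
        rw [if_neg h4, if_pos h5] at hb
        rw [mul_comm]
        exact mul_mem_uA hb ha'
    · rw [if_neg h2]
      exact A.mul_mem ha' hb'

lemma theNet_irreducible (n : ℕ) (A : Subalgebra R K) {u : K} (hu : u ∈ A) (hu0 : u ≠ 0) :
    (theNet n A u hu).Irreducible := by
  intro i j _
  rw [Submodule.ne_bot_iff]
  have h1 : u ∈ uA A u := mem_uA.2 ⟨1, A.one_mem, mul_one u⟩
  refine ⟨u, ?_, hu0⟩
  show u ∈ (if (i : ℕ) = 0 ∧ (j : ℕ) = 1 then ruA A u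
    else if (i : ℕ) ≤ 1 ∧ 2 ≤ (j : ℕ) then uA A u else Subalgebra.toSubmodule A)
  split_ifs
  · exact Submodule.mem_sup_right h1
  · exact h1
  · exact uA_le A hu h1

lemma theNet_not_closed {n : ℕ} (hn : 2 ≤ n) (A : Subalgebra R K) {u z : K} (hu : u ∈ A)
    (hz : z ∈ A) (hz' : z ∉ ruA A u) : ¬ (theNet n A u hu).Closed := by
  have h01 : (⟨0, by omega⟩ : Fin n) ≠ ⟨1, by omega⟩ := by
    intro h
    simpa using congrArg Fin.val h
  refine not_closed (c := z) _ h01 ?_ ?_ ?_ ?_
  · show (1 : K) ∈ (if (0 : ℕ) = 0 ∧ (1 : ℕ) = 1 then ruA A u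
      else if (0 : ℕ) ≤ 1 ∧ 2 ≤ (1 : ℕ) then uA A u else Subalgebra.toSubmodule A)
    rw [if_pos ⟨rfl, rfl⟩]
    exact Submodule.mem_sup_left (Submodule.one_le.1 le_rfl)
  · show (1 : K) ∈ (if (1 : ℕ) = 0 ∧ (0 : ℕ) = 1 then ruA A u
      else if (1 : ℕ) ≤ 1 ∧ 2 ≤ (0 : ℕ) then uA A u else Subalgebra.toSubmodule A)
    rw [if_neg (by omega), if_neg (by omega)]
    exact A.one_mem
  · show z ∈ (if (1 : ℕ) = 0 ∧ (0 : ℕ) = 1 then ruA A u
      else if (1 : ℕ) ≤ 1 ∧ 2 ≤ (0 : ℕ) then uA A u else Subalgebra.toSubmodule A)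
    rw [if_neg (by omega), if_neg (by omega)]
    exact hz
  · show z ∉ (if (0 : ℕ) = 0 ∧ (1 : ℕ) = 1 then ruA A u
      else if (0 : ℕ) ≤ 1 ∧ 2 ≤ (1 : ℕ) then uA A u else Subalgebra.toSubmodule A)
    rw [if_pos ⟨rfl, rfl⟩]
    exact hz'

/-- If all irreducible elementary nets of some order `n ≥ 2` are closed, the condition holds. -/
theorem cond_of_closed (hn : 2 ≤ n)
    (h : ∀ N : ElementaryNet R K n, N.Irreducible → N.Closed) : Cond R K := by
  intro z u hu0
  have hz : z ∈ Algebra.adjoin R {z, u} := Algebra.subset_adjoin (by simp)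
  have hu : u ∈ Algebra.adjoin R {z, u} := Algebra.subset_adjoin (by simp)
  by_cases hz' : z ∈ ruA (Algebra.adjoin R {z, u}) u
  · obtain ⟨x, hx, y, hy, hxy⟩ := Submodule.mem_sup.1 hz'
    obtain ⟨r, rfl⟩ := Submodule.mem_one.1 hx
    obtain ⟨y', hy', rfl⟩ := mem_uA.1 hy
    exact ⟨r, y', hy', hxy.symm⟩
  · exact absurd (h _ (theNet_irreducible n _ hu hu0)) (theNet_not_closed hn _ hu hz hz')

/-- the net `σ₁₂ = R`, `σ₂₁ = A` of order two -/
def twoNet (A : Subalgebra R K) : ElementaryNet R K 2 where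
  σ i j := if (i : ℕ) = 0 then 1 else Subalgebra.toSubmodule A
  mul_mem' := by
    intro i r j hir hrj hij
    exfalso
    omega

lemma twoNet_irreducible (A : Subalgebra R K) : (twoNet A : ElementaryNet R K 2).Irreducible := by
  intro i j _
  show (if (i : ℕ) = 0 then (1 : Submodule R K) else Subalgebra.toSubmodule A) ≠ ⊥
  rw [Submodule.ne_bot_iff]
  refine ⟨1, ?_, one_ne_zero⟩
  split_ifs
  · exact Submodule.one_le.1 le_rfl
  · exact A.one_mem

/-- If all irreducible elementary nets of order two are closed, then `K = R`. -/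
theorem surjective_of_closed
    (h : ∀ N : ElementaryNet R K 2, N.Irreducible → N.Closed) :
    Function.Surjective (algebraMap R K) := by
  intro z
  by_contra hz
  have hz' : z ∉ (1 : Submodule R K) := by
    intro hmem
    exact hz (Submodule.mem_one.1 hmem)
  have h01 : (0 : Fin 2) ≠ 1 := by decide
  refine absurd (h _ (twoNet_irreducible (Algebra.adjoin R {z})))
    (not_closed (c := z) _ h01 ?_ ?_ ?_ ?_)
  · show (1 : K) ∈ (if (0 : ℕ) = 0 then (1 : Submodule R K) else
      Subalgebra.toSubmodule (Algebra.adjoin R {z}))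
    rw [if_pos rfl]
    exact Submodule.one_le.1 le_rfl
  · show (1 : K) ∈ (if (1 : ℕ) = 0 then (1 : Submodule R K) else
      Subalgebra.toSubmodule (Algebra.adjoin R {z}))
    rw [if_neg (by omega)]
    exact (Algebra.adjoin R {z}).one_mem
  · show z ∈ (if (1 : ℕ) = 0 then (1 : Submodule R K) else
      Subalgebra.toSubmodule (Algebra.adjoin R {z}))
    rw [if_neg (by omega)]
    exact Algebra.self_mem_adjoin_singleton R z
  · show z ∉ (if (0 : ℕ) = 0 then (1 : Submodule R K) else
      Subalgebra.toSubmodule (Algebra.adjoin R {z}))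
    rw [if_pos rfl]
    exact hz'

/-- If `K = R`, all irreducible elementary nets are closed. -/
theorem closed_of_surjective (hs : Function.Surjective (algebraMap R K))
    (N : ElementaryNet R K n) (hN : N.Irreducible) : N.Closed := by
  intro i j hij a _ _ _
  obtain ⟨b, hb, hb0⟩ := (N.σ i j).ne_bot_iff.1 (hN i j hij)
  obtain ⟨r, hr⟩ := hs (a * b⁻¹)
  have : a = r • b := by
    rw [Algebra.smul_def, hr, inv_mul_cancel_right₀ hb0]
  rw [this]
  exact (N.σ i j).smul_mem r hb

/-- Closedness of all irreducible elementary nets in terms of the algebraic condition. -/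
theorem all_closed_iff_cond (hn : 2 ≤ n) :
    (∀ N : ElementaryNet R K n, N.Irreducible → N.Closed) ↔
      Function.Surjective (algebraMap R K) ∨ (3 ≤ n ∧ Cond R K) := by
  constructor
  · intro h
    by_cases hn3 : 3 ≤ n
    · exact Or.inr ⟨hn3, cond_of_closed hn h⟩
    · have h2 : n = 2 := by omega
      subst h2
      exact Or.inl (surjective_of_closed h)
  · rintro (h | ⟨hn3, h⟩) N hN
    · exact closed_of_surjective h N hN
    · exact closed_of_cond h hn3 N hN

end General

end Pool.Agent.KS6_99.EN
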